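import Pool.Agent.H4.FV.Stm

set_option autoImplicit false

/-! Project FV (helper4): from the dichotomy for invariant Borel classes of operations to the
dichotomy for first-order theories (helper225). -/

namespace Pool.Agent.H225.FV

open FirstOrder FirstOrder.Language
open Pool.Agent.W889.FO
open Pool.Agent.W889.VC (BP VCof Dich)
open Pool.Agent.H4.VG
open Pool.Agent.H4.FV
open Pool.Agent.N649.SV

theorem mkM_op (S : LM.Structure ℕ) : mkM (op S) = S := by
  refine FirstOrder.Language.Structure.ext ?_ ?_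
  · funext n F v
    cases F with
    | mul =>
      show @Structure.funMap LM ℕ S 2 MF.mul ![v 0, v 1] = @Structure.funMap LM ℕ S 2 MF.mul v
      congr 1
      funext m
      fin_cases m <;> rfl
  · funext n R v
    exact R.elim

theorem countable_sentence : Countable LM.Sentence := by
  have h1 : Countable (Σ n, LM.Functions n) := by
    have h : Subsingleton (Σ n, LM.Functions n) := ⟨by
      rintro ⟨n, F⟩ ⟨n', F'⟩
      cases F
      cases F'
      rfl⟩
    infer_instance
  have h1' : Countable (Σ n, LM.Relations n) := by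
    have h : IsEmpty (Σ n, LM.Relations n) := ⟨fun x => x.2.elim⟩
    infer_instance
  have h2 : Countable LM.Symbols :=
    inferInstanceAs (Countable ((Σ n, LM.Functions n) ⊕ Σ n, LM.Relations n))
  have h3 : Cardinal.mk (Σ n, LM.BoundedFormula Empty n) ≤ Cardinal.aleph0 := by
    refine BoundedFormula.card_le.trans ?_
    refine max_le le_rfl ?_
    rw [Cardinal.mk_eq_zero Empty]
    simp only [zero_add, Cardinal.lift_id]
    exact Cardinal.mk_le_aleph0
  have h4 : Countable (Σ n, LM.BoundedFormula Empty n) := Cardinal.mk_le_aleph0_iff.1 h3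
  exact (sigma_mk_injective (β := fun n => LM.BoundedFormula Empty n) (i := 0)).countable

theorem bp_coord (a b c : ℕ) : BP (fun μ : Bin => μ a b = c) := by
  have h : Measurable (fun μ : Bin => μ a b) :=
    (measurable_pi_apply b).comp (measurable_pi_apply a)
  exact h (measurableSet_singleton c)

theorem bp_term {α : Type} (t : LM.Term α) (v : α → ℕ) :
    ∀ c : ℕ, BP (fun μ : Bin => @Term.realize LM ℕ (mkM μ) α v t = c) := by
  induction t with
  | var i => exact fun c => BP.const (v i = c)
  | @func n F ts ih =>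
    intro c
    cases F with
    | mul =>
      have h : BP (fun μ : Bin => ∃ a b : ℕ, @Term.realize LM ℕ (mkM μ) α v (ts 0) = a ∧
          @Term.realize LM ℕ (mkM μ) α v (ts 1) = b ∧ μ a b = c) :=
        BP.ex fun a => BP.ex fun b => (ih 0 a).and ((ih 1 b).and (bp_coord a b c))
      refine h.congr fun μ => ?_
      show _ ↔ μ (@Term.realize LM ℕ (mkM μ) α v (ts 0))
        (@Term.realize LM ℕ (mkM μ) α v (ts 1)) = c
      constructor
      · rintro ⟨a, b, h1, h2, h3⟩
        rw [h1, h2, h3]
      · exact fun h => ⟨_, _, rfl, rfl, h⟩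

theorem bp_real {β : Type} {n : ℕ} (φ : LM.BoundedFormula β n) (c : β → ℕ) :
    ∀ d : Fin n → ℕ, BP (fun μ : Bin => @BoundedFormula.Realize LM ℕ (mkM μ) _ _ φ c d) := by
  induction φ with
  | falsum => exact fun d => BP.const False
  | @equal n t1 t2 =>
    intro d
    have h : BP (fun μ : Bin => ∃ a : ℕ,
        @Term.realize LM ℕ (mkM μ) _ (Sum.elim c d) t1 = a ∧
        @Term.realize LM ℕ (mkM μ) _ (Sum.elim c d) t2 = a) :=
      BP.ex fun a => (bp_term t1 _ a).and (bp_term t2 _ a)
    refine h.congr fun μ => ?_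
    show _ ↔ @Term.realize LM ℕ (mkM μ) _ (Sum.elim c d) t1 =
      @Term.realize LM ℕ (mkM μ) _ (Sum.elim c d) t2
    constructor
    · rintro ⟨a, h1, h2⟩
      rw [h1, h2]
    · exact fun h => ⟨_, h, rfl⟩
  | @rel n l R ts => exact R.elim
  | @imp n f1 f2 h1 h2 => exact fun d => (h1 d).imp (h2 d)
  | @all n g h => exact fun d => BP.all fun a => h (Fin.snoc d a)

/-- the isomorphism of structures -/
theorem equiv_of {x y : Bin} (h : OIso x y) :
    Nonempty (@FirstOrder.Language.Equiv LM ℕ ℕ (mkM x) (mkM y)) := by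
  obtain ⟨σ, hσ⟩ := h
  refine ⟨@FirstOrder.Language.Equiv.mk LM ℕ ℕ (mkM x) (mkM y) σ ?_ ?_⟩
  · intro n F v
    cases F with
    | mul => exact (hσ (v 0) (v 1)).symm
  · intro n R v
    exact R.elim

theorem of_equiv {x y : Bin}
    (h : Nonempty (@FirstOrder.Language.Equiv LM ℕ ℕ (mkM x) (mkM y))) : OIso x y := by
  obtain ⟨e⟩ := h
  refine ⟨@FirstOrder.Language.Equiv.toEquiv LM ℕ ℕ (mkM x) (mkM y) e, fun m n => ?_⟩
  have h1 := @FirstOrder.Language.Equiv.map_fun' LM ℕ ℕ (mkM x) (mkM y) e 2 MF.mul ![m, n]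
  exact h1.symm

theorem OIso.symm {x y : Bin} (h : OIso x y) : OIso y x := by
  obtain ⟨σ, hσ⟩ := h
  refine ⟨σ.symm, fun m n => ?_⟩
  have h1 := hσ (σ.symm m) (σ.symm n)
  rw [Equiv.apply_symm_apply, Equiv.apply_symm_apply] at h1
  rw [h1, Equiv.symm_apply_apply]

theorem model_of {T : LM.Theory} {x y : Bin} (h : OIso x y)
    (hx : @Theory.Model LM ℕ (mkM x) T) : @Theory.Model LM ℕ (mkM y) T := by
  obtain ⟨e⟩ := equiv_of h
  exact @StrongHomClass.theory_model LM ℕ ℕ (mkM x) (mkM y) T _ _ _ e hx

/-- **Task good.** -/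
theorem leaf_good : Lf_good := by
  intro K hV T hT
  let B : Set Bin := {μ | @Theory.Model LM ℕ (mkM μ) T}
  have hB : MeasurableSet B := by
    have : Countable LM.Sentence := countable_sentence
    have h1 : BP (fun μ : Bin => ∀ φ : T, @Sentence.Realize LM ℕ (mkM μ) φ.1) := by
      have : Countable T := Subtype.countable
      exact BP.all fun φ => bp_real φ.1 _ _
    refine h1.congr fun μ => ?_
    constructor
    · exact fun h => @Theory.Model.mk LM ℕ (mkM μ) T fun φ hφ => h ⟨φ, hφ⟩
    · exact fun h φ => @Theory.Model.realize_of_mem LM ℕ (mkM μ) T h φ.1 φ.2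
  have hinv : ∀ x y, OIso x y → (x ∈ B ↔ y ∈ B) := fun x y h =>
    ⟨fun hx => model_of h hx, fun hy => model_of (OIso.symm h) hy⟩
  have hK : ∀ x ∈ B, K x := fun x hx => hT (mkM x) hx
  rcases hV B hB hinv hK with ⟨f, hf⟩ | ⟨g, hg1, hg2, hg3⟩
  · left
    refine ⟨fun n => mkM (f n), fun S hS => ?_⟩
    have hS' : op S ∈ B := by
      show @Theory.Model LM ℕ (mkM (op S)) T
      rw [mkM_op]
      exact hS
    obtain ⟨n, hn⟩ := hf _ hS'
    refine ⟨n, ?_⟩
    have h1 := equiv_of (OIso.symm hn)
    rwa [mkM_op] at h1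
  · right
    refine ⟨fun x => mkM (g x), fun x => hg2 x, fun x y h => hg3 x y (of_equiv h),
      fun n R a => R.elim, fun n F a b => ?_⟩
    cases F with
    | mul =>
      have h1 : Continuous (fun x => g x (a 0) (a 1)) :=
        (continuous_apply (a 1)).comp ((continuous_apply (a 0)).comp (hg1 trivial))
      exact (isOpen_discrete ({b} : Set ℕ)).preimage h1

end Pool.Agent.H225.FV
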